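import Pool.Agent.MP_ee8c61_ag.N3Z.Flag

/-!
A complete curve of exponent zero along which the primitive is bounded by a semiample class.
-/

namespace Pool.Agent.MP_ee8c61_ag.N3.M3Z

open Pool.Agent.MP_ee8c61_ag.M3

set_option linter.unusedSectionVars false

variable [Base]

open M3 M3E M3RESID WithZero Pool.Agent.MP_cce4c9_lc Pool.Agent.MP_cce4c9_lc.H87

noncomputable section

variable {L k : Type} [Field L] [Algebra ℂ L] [Field k] [Algebra ℂ k]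

/-- At every point the field `v` lies, modulo exact fields, in the lattice `c`. -/
def LCC (M : Mod 3) (d : Dv (KK 3)) (v : VF (KK 3)) (c : M.J → ℤ) : Prop :=
  ∀ V, Ov V → ∃ b, M.In b V ∧ ∃ u ∈ d.Ex, ∀ l,
    (v - u) (M.S.z b l) / M.S.un b l * M.mon b (M.kk + 1 - c) ∈ V

variable {f : Po 3} {M : Mod 3} {P : Pl (KK 3) L} {G : Pl L k} {e i : M.J}

/-- The part of a divisor that is transversal to the curve. -/
def fl (e i : M.J) (c : M.J → ℤ) : M.J → ℤ := fun j => if j = e ∨ j = i then 0 else c j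

theorem fl_add (c c' : M.J → ℤ) : fl e i (c + c') = fl e i c + fl e i c' := funext fun j => by
  simp only [fl, Pi.add_apply]
  split_ifs <;> simp

theorem fl_eq {c : M.J → ℤ} (h1 : c e = 0) (h2 : c i = 0) : fl e i c = c := funext fun j => by
  simp only [fl]
  split_ifs with h
  · rcases h with rfl | rfl <;> simp [*]
  · rfl

theorem p2_mul {g g' : KK 3} (hg : g ∈ cmp P G.o.O) (hg' : g' ∈ cmp P G.o.O) :
    G.π (P.π (g * g')) = G.π (P.π g) * G.π (P.π g') := by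
  rw [P.mul _ hg.1 _ hg'.1, G.mul _ hg.2 _ hg'.2]

theorem p2_add {g g' : KK 3} (hg : g ∈ cmp P G.o.O) (hg' : g' ∈ cmp P G.o.O) :
    G.π (P.π (g + g')) = G.π (P.π g) + G.π (P.π g') := by
  rw [P.add _ hg.1 _ hg'.1, G.add _ hg.2 _ hg'.2]

theorem p2_cst (c : ℂ) : G.π (P.π (algebraMap ℂ _ c)) = algebraMap ℂ k c := by
  rw [P.π_cst, G.π_cst]

theorem cst_cmp (c : ℂ) : algebraMap ℂ (KK 3) c ∈ cmp P G.o.O :=
  ⟨cst_F _ c, by rw [P.π_cst]; exact cst_F _ c⟩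

theorem p2_sub {g g' : KK 3} (hg : g ∈ cmp P G.o.O) (hg' : g' ∈ cmp P G.o.O) :
    G.π (P.π (g - g')) = G.π (P.π g) - G.π (P.π g') := by
  rw [eq_sub_iff_add_eq, ← p2_add (sub_mem hg hg') hg', sub_add_cancel]

theorem p2_ne {g : KK 3} (hg : Un (cmp P G.o.O) g) : G.π (P.π g) ≠ 0 :=
  have u := G.o.un_O.1 (un_cmp.1 hg).2
  pi_ne u.1 u.2

theorem un_p2 {g : KK 3} (hg : g ∈ cmp P G.o.O) (h : G.π (P.π g) ≠ 0) : Un (cmp P G.o.O) g :=
  have u := un_of_pi hg.2 h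
  un_cmp.2 ⟨un_of_pi hg.1 u.1, u⟩

theorem Lb.un {b : M.ι} {l : Fin 3} {j : M.J} (h : M.S.lab b j = some l) :
    (M.S.un b l : KK 3) = M.S.z b l := by
  rw [H59.Sys.un, Finset.prod_eq_single j (fun j' _ hj => if_neg fun e =>
    hj (M.S.lab_inj b _ _ _ e h)) (by simp), if_pos h, M.S.η_some b j l h]

theorem Lb.un2 {b : M.ι} {l0 l1 l2 : Fin 3} (hl : Lb b e i l0 l1 l2) :
    (M.S.un b l2 : KK 3) = M.mon b (fl e i 1) := by
  rw [H59.Sys.un, Mod.mon, H59.Sys.mon]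
  congr 1
  refine Finset.prod_congr rfl fun j _ => ?_
  by_cases h : j = e ∨ j = i
  · rw [fl, if_pos h, zpow_zero, if_neg]
    rcases h with rfl | rfl
    · rw [hl.h0]; exact fun e => hl.n02 (Option.some.inj e)
    · rw [hl.h1]; exact fun e => hl.n12 (Option.some.inj e)
  · rw [fl, if_neg h, Pi.one_apply, zpow_one]
    split_ifs with h1
    · rfl
    rcases h2 : M.S.lab b j with _ | l
    · exact (M.S.η_none b j h2).symm
    rcases hl.all l with rfl | rfl | rfl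
    · exact absurd (Or.inl (M.S.lab_inj b _ _ _ h2 hl.h0)) h
    · exact absurd (Or.inr (M.S.lab_inj b _ _ _ h2 hl.h1)) h
    · exact absurd h2 h1

namespace Fl

variable (h : Fl f M P G e i) {b : M.ι} (hb : M.In b (cmp P G.o.O))
include h hb

theorem un_fl (c : M.J → ℤ) : Un (cmp P G.o.O) (M.mon b (fl e i c)) :=
  h.bas.un_of b _ _ hb fun j hj => if_pos (h.cv.thru e i _ j h.isc hj)

/-- The order of the transversal part of a monomial. -/
def od (x : Place ℂ k) : (M.J → ℤ) →+ ℤ :=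
  AddMonoidHom.mk' (fun c => x.ord (G.π (P.π (M.mon b (fl e i c))))) fun c c' => by
    rw [fl_add, h.bas.mon_add, p2_mul (h.un_fl hb c).2.1 (h.un_fl hb c').2.1,
      x.ord_mul (x.val_ne (p2_ne (h.un_fl hb c))) (x.val_ne (p2_ne (h.un_fl hb c')))]

theorem od_ap (x : Place ℂ k) (c : M.J → ℤ) :
    h.od hb x c = x.ord (G.π (P.π (M.mon b (fl e i c)))) := rfl

theorem od_mono {x : Place ℂ k} (hx : M.In b (Vx P G x)) {c c' : M.J → ℤ} (hc : c ≤ c') :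
    h.od hb x c ≤ h.od hb x c' := by
  rw [← sub_nonneg, ← map_sub, od_ap]
  refine (x.val_le_one (x.val_ne (p2_ne (h.un_fl hb _)))).1 (val_Vx (hx _ ?_))
  refine h.bas.mon_mem b _ fun j => ?_
  simp only [fl, Pi.zero_apply, Pi.sub_apply]
  split_ifs
  · rfl
  · exact sub_nonneg.2 (hc j)

theorem ord_ge {x : Place ℂ k} {g : KK 3} (hg : g ∈ cmp P G.o.O) (h0 : G.π (P.π g) ≠ 0)
    {c : M.J → ℤ} (hc : g * M.mon b (fl e i c) ∈ Vx P G x) :
    -h.od hb x c ≤ x.ord (G.π (P.π g)) := by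
  have h1 := val_Vx hc
  have h2 := p2_ne (h.un_fl hb c)
  rw [p2_mul hg (h.un_fl hb c).2.1, x.val_le_one (x.val_ne (mul_ne_zero h0 h2)),
    x.ord_mul (x.val_ne h0) (x.val_ne h2), ← od_ap h hb] at h1
  omega

variable {l0 l1 l2 : Fin 3} (hl : Lb b e i l0 l1 l2)
include hl

theorem dlog (U : KK 3) (h0 : U ≠ 0) (c : M.J → ℤ) :
    M.S.D b l2 (U * M.mon b c) / (U * M.mon b c) =
      M.S.D b l2 (U * M.mon b (fl e i c)) / (U * M.mon b (fl e i c)) := by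
  have e1 : c = fl e i c + (c e • M.e e + c i • M.e i) := funext fun j => by
    have := h.isc.1
    simp only [fl, Pi.add_apply, Pi.smul_apply, M.e_apply, smul_eq_mul]
    by_cases h1 : j = e
    · subst h1; simp [this.symm]
    by_cases h2 : j = i
    · subst h2; simp [h1]
    · simp [h1, h2]
  have d0 : M.S.D b l2 (M.η b e) = 0 := by
    rw [Mod.η, M.S.η_some b e l0 hl.h0, M.S.D_z, if_neg hl.n02.symm]
  have d1 : M.S.D b l2 (M.η b i) = 0 := by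
    rw [Mod.η, M.S.η_some b i l1 hl.h1, M.S.D_z, if_neg hl.n12.symm]
  have d2 : M.S.D b l2 (M.mon b (c e • M.e e + c i • M.e i)) = 0 := by
    rw [h.bas.mon_add, h.bas.mon_e, h.bas.mon_e, Derivation.leibniz, Dv.zpow_der _ _ (M.η_ne b e),
      Dv.zpow_der _ _ (M.η_ne b i), d0, d1]
    simp
  conv_lhs => rw [e1, h.bas.mon_add, ← mul_assoc, Derivation.leibniz, d2]
  rw [smul_zero, zero_add, smul_eq_mul, mul_comm, mul_div_mul_right _ _ (M.mon_ne b _)]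

end Fl

theorem Fl.flag (h : Fl f M P G e i) {la : ℚ} {v₃ : VF (KK 3)} {d : Dv L} {v : VF L}
    (h3 : Exp (dvf f la) P.o 0) (hd : P.RsD (dvf f la) d) (hv : P.Res (dvf f la) v₃ v)
    {c : M.J → ℤ} (ce : c e = M.k e + 1) (ci : c i = M.k i + 1) {x : Place ℂ k} {b : M.ι}
    (hx : M.In b (Vx P G x)) (hb : M.In b (cmp P G.o.O)) {u : VF (KK 3)} (hu : u ∈ (dvf f la).Ex)
    (hc : ∀ l, (v₃ - u) (M.S.z b l) / M.S.un b l * M.mon b (M.kk + 1 - c) ∈ Vx P G x) :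
    Flag G d v x (h.od hb x c - la * h.od hb x M.aa) := by
  obtain ⟨l0, l1, l2, hl⟩ := h.labels hb
  have hk := h.isFF hb hl
  obtain ⟨t, ht⟩ := h.ord_y hx hl
  obtain ⟨C, hC, hA⟩ := h.exists_co2 hb hl t
  have hA3 := h.at3 hb hl t
  obtain ⟨X, hX⟩ : ∃ X, X = v₃ - u := ⟨_, rfl⟩
  rw [← hX] at hc
  have hfl : fl e i (M.kk + 1 - c) = M.kk + 1 - c :=
    fl_eq (by simp [Mod.kk, ce]) (by simp [Mod.kk, ci])
  have hun := h.un_fl hb (M.kk + 1 - c)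
  rw [hfl] at hun
  have hV : ∀ l, X (M.S.z b l) / M.S.un b l ∈ cmp P G.o.O := fun l =>
    hun.mem_iff.1 (Vx_le x (hc l))
  have hz : ∀ l, X (M.S.z b l) = X (M.S.z b l) / M.S.un b l * M.S.un b l := fun l =>
    (div_mul_cancel₀ _ (Units.ne_zero _)).symm
  have h2V : X (M.S.z b l2) ∈ cmp P G.o.O := by
    rw [hz, hl.un2]
    exact mul_mem (hl.un2 ▸ hV l2) (h.un_fl hb 1).2.1
  have z1F : M.S.z b l1 ∈ P.o.F 0 := hA3.z_F 1
  have hXL : X ∈ LV P.o 0 := hA3.mem_LV.2 ⟨by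
      show X (M.S.z b l0) ∈ _
      rw [hz, Lb.un hl.h0]
      exact P.o.F_mul (Lb.un hl.h0 ▸ (hV l0).1) (Or.inr hA3.vz.ge), fun j hj => by
      fin_cases j
      · exact absurd rfl hj
      · show X (M.S.z b l1) ∈ _
        rw [hz, Lb.un hl.h1]
        exact F_mul0 (Lb.un hl.h1 ▸ (hV l1).1) z1F
      · simpa [co3] using h2V.1⟩
  obtain ⟨w, hw⟩ := exists_Rs P hXL
  have hvw : v - w ∈ d.Ex := Pl.Res.uniq hC hA3 h3 hd hv ⟨u, hu, hX ▸ hw⟩
  have e0 : C.z 0 = P.π (M.S.z b l1) := hC 0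
  have e1 : C.z 1 = P.π (M.S.z b l2 - algebraMap ℂ _ t) := hC 1
  have hy := h.un_y hb hl t
  have w1 : w (C.z 1) = P.π (X (M.S.z b l2)) := by
    rw [e1, ← hw.2 _ hy.2.1.1, map_sub, Derivation.map_algebraMap, sub_zero]
  have hwL : w ∈ LV G.o 0 := (M3J.mem_LV hA).2 ⟨by
    rw [e0, ← hw.2 _ z1F, hz, Lb.un hl.h1, P.mul _ (Lb.un hl.h1 ▸ (hV l1).1) _ z1F, ← e0]
    exact G.o.F_mul (Lb.un hl.h1 ▸ (hV l1).2) (M3J.z0_F hA), w1 ▸ h2V.2⟩
  obtain ⟨D, hD⟩ := exists_Rs G (hA.D_LV (j := 1) (by decide))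
  have hD1 : D (G.π (C.z 1)) = 1 := by
    rw [← hD.2 _ (M3J.z1_F hA), C.dual, if_pos rfl, pi_one]
  have hR : P.Rs (M.S.D b l2) (C.D 1) := hC.D hA3 1
  have key : ∀ (U : (KK 3)ˣ) (c : M.J → ℤ), M.S.IsU b U →
      M.S.D b l2 (U * M.mon b c) / (U * M.mon b c) ∈ cmp P G.o.O ∧
      x.val (G.π (C.z 1) * G.π (P.π (M.S.D b l2 (U * M.mon b c) / (U * M.mon b c))) -
        algebraMap ℂ k (h.od hb x c)) < 1 := fun U c hU => by
    have uU : Un (Vx P G x) U := ⟨U.ne_zero, hx _ hU.1, by simpa using hx _ hU.2⟩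
    have uV := uU.mono (Vx_le x)
    have u1 := uV.mul (h.un_fl hb c)
    obtain ⟨a1, a2⟩ := un_cmp.1 u1
    rw [P.o.un_O] at a1
    rw [G.o.un_O] at a2
    have r1 := hR.dlog a1.1 a1.2
    rw [h.dlog hb hl _ U.ne_zero, r1, hD.dlog a2.1 a2.2]
    refine ⟨⟨LV_dlog hR.1 _, r1 ▸ LV_dlog hD.1 _⟩, ?_⟩
    have := eul hk x (e1 ▸ ht) hD1 (p2_ne u1)
    rw [mul_div_assoc] at this
    have e2 : x.ord (G.π (P.π (U * M.mon b (fl e i c)))) = h.od hb x c := by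
      rw [p2_mul uV.2.1 (h.un_fl hb c).2.1, x.ord_mul (x.val_ne (p2_ne uV))
        (x.val_ne (p2_ne (h.un_fl hb c))), x.ord_of_val_one ((un_Vx uV.2.1).1 uU), zero_add]
      rfl
    rwa [e2] at this
  obtain ⟨U, hU, eU⟩ := h.ok.det b
  obtain ⟨U', hU', eU'⟩ := h.ok.ord b
  obtain ⟨k1, k2⟩ := key U M.kk hU
  obtain ⟨k3, k4⟩ := key U' M.aa hU'
  have hδ : (dvf f la).δ ((co3 h.der hl t).th 2) = (M.S.z b l2 - algebraMap ℂ _ t) *
      (M.S.D b l2 (U * M.mon b M.kk) / (U * M.mon b M.kk) + algebraMap ℂ _ (-(la : ℂ)) *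
        (M.S.D b l2 (U' * M.mon b M.aa) / (U' * M.mon b M.aa))) + 1 := by
    have e3 : (M3.co 3).jac (coB h.der b) = U * M.mon b M.kk := by
      rw [← eU, h.ok.r]; rfl
    have e4 : (coB h.der b).dv.δ (M.S.D b l2) = 0 := by
      rw [Co.dv_δ]
      refine Finset.sum_eq_zero fun j _ => ?_
      show M.S.D b j (M.S.D b l2 (M.S.z b j)) = 0
      rw [M.S.D_z]
      split_ifs <;> simp
    rw [Co.th, (dvf f la).smul, (co3 h.der hl t).dual, if_pos rfl]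
    show _ * (dvf f la).δ (M.S.D b l2) + 1 = _
    rw [dvf, Dv.tw_δ, (M3.co 3).dv_jac (coB h.der b), Dv.tw_δ, e3, e4, eU', map_one, one_mul,
      zero_add]
    rfl
  refine ⟨C, 1 + h.od hb x M.kk - la * h.od hb x M.aa, h.od hb x c - h.od hb x M.kk - 1, v - w, hA,
    e1 ▸ ht, hvw, by rwa [sub_sub_cancel], ?_, ?_, by push_cast; linarith⟩
  · rw [sub_sub_cancel, w1]
    by_cases h0 : G.π (P.π (X (M.S.z b l2))) = 0
    · simp [h0]
    rw [x.val_le_exp (x.val_ne h0), neg_neg]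
    have h1 : X (M.S.z b l2) * M.mon b (fl e i (M.kk - c)) ∈ Vx P G x := by
      have := hc l2
      rw [← hfl, hl.un2, show M.kk + 1 - c = M.kk - c + 1 by ring, fl_add, h.bas.mon_add,
        div_mul_eq_mul_div, ← mul_assoc, mul_div_cancel_right₀ _ (M.mon_ne b _)] at this
      exact this
    have h2 := h.ord_ge hb h2V h0 h1
    rw [map_sub] at h2
    omega
  · have r2 := hd _ _ (hC.th hA3 1)
    have m1 := mul_mem (cst_cmp (P := P) (G := G) (-(la : ℂ))) k3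
    rw [← r2]
    show x.val (G.π (P.π ((dvf f la).δ ((co3 h.der hl t).th 2))) - _) < 1
    rw [hδ, p2_add (mul_mem hy.2.1 (add_mem k1 m1)) (one_mem _), p2_mul hy.2.1 (add_mem k1 m1),
      p2_add k1 m1, p2_mul (cst_cmp _) k3, p2_cst, P.π_one, G.π_one, ← e1]
    have k5 := (mul_le_of_le_one_left' (x.const_le (-(la : ℂ)))).trans_lt k4
    rw [← map_mul] at k5
    refine lt_of_eq_of_lt (congrArg x.val ?_) (x.val.map_add_lt k2 k5)
    simp only [Rat.cast_sub, Rat.cast_add, Rat.cast_mul, Rat.cast_one, Rat.cast_intCast, map_sub,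
      map_add, map_mul, map_one, map_neg]
    ring

theorem Fl.ov (h : Fl f M P G e i)
    (hx : ∀ l, ∃ κ : ℂ, ¬Un (cmp P G.o.O) (xx 3 l - algebraMap ℂ _ κ)) (x : Place ℂ k) :
    Ov (Vx P G x) := by
  have ho := ov_iff.1 h.isc.2.1
  refine ov_iff.2 ⟨fun c => ⟨(ho.1 c).1, (ho.1 c).2, ?_⟩, fun l => ⟨(ho.2 l).1, (ho.2 l).2, ?_⟩⟩
  · rw [p2_cst]
    exact x.const_le c
  · obtain ⟨κ, hκ⟩ := hx l
    have h1 : G.π (P.π (xx 3 l - algebraMap ℂ _ κ)) = 0 := by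
      by_contra h1
      exact hκ (un_p2 (sub_mem (ho.2 _) (cst_cmp κ)) h1)
    rw [p2_sub (ho.2 _) (cst_cmp κ), p2_cst, sub_eq_zero] at h1
    rw [h1]
    exact x.const_le κ

/-- The class `c' / m` is trivial on the curve, but not as a divisor. -/
theorem Fl.zero (h : Fl f M P G e i) {la : ℚ} {v₃ : VF (KK 3)} {C₀ : Co L 2} {d : Dv L} {v : VF L}
    {b₀ : ℂ} (hS : M3F.Srf C₀ d v b₀) (hE : Exp d G.o 0) (h3 : Exp (dvf f la) P.o 0)
    (hd : P.RsD (dvf f la) d) (hv : P.Res (dvf f la) v₃ v) {c c' : M.J → ℤ}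
    (hc : LCC M (dvf f la) v₃ c) (ce : c e = M.k e + 1) (ci : c i = M.k i + 1) {m r : ℕ}
    (hm : 0 < m) (hr : (r : ℚ) = m * la) (hcc : c' ≤ m • c) (ce' : c' e = r * M.a e)
    (ci' : c' i = r * M.a i) (hx : ∀ l, ∃ κ : ℂ, ¬Un (cmp P G.o.O) (xx 3 l - algebraMap ℂ _ κ))
    {s : KK 3} (hs : s ∈ M.H c') (hg : M.Gen (cmp P G.o.O) c' s) :
    (∀ κ : ℂ, Un (cmp P G.o.O) (s * ip 3 f ^ r - algebraMap ℂ _ κ)) ∧
      ∀ s' ∈ M.H c', ∃ κ : ℂ, ¬Un (cmp P G.o.O) (s' / s - algebraMap ℂ _ κ) := by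
  have := M3F.cz k
  obtain ⟨b0, hb0⟩ := h.ok.cov _ h.isc.2.1
  obtain ⟨l0, l1, l2, hl⟩ := h.labels hb0
  have hk := h.isFF hb0 hl
  choose b hbx u hu hl' using fun x => hc _ (h.ov hx x)
  have hb : ∀ x, M.In (b x) (cmp P G.o.O) := fun x g hg => Vx_le x (hbx x g hg)
  obtain ⟨q, F, hq, hF, hord⟩ := zl hk hS hE _ fun x =>
    h.flag h3 hd hv ce ci (hbx x) (hb x) (hu x) (hl' x)
  have F0 : F ≠ 0 := H9.nc_ne hF
  have hfl : fl e i (c' - r • M.aa) = c' - r • M.aa :=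
    fl_eq (by simp [Mod.aa, ce']) (by simp [Mod.aa, ci'])
  have eq : ∀ V b s, M.In b V → ∃ U, Un V U ∧
      s * ip 3 f ^ r * M.mon b (fl e i (c' - r • M.aa)) = s * M.mon b c' * U := fun V b s hb => by
    obtain ⟨U, hU, eU⟩ := h.ok.ord b
    refine ⟨U ^ r, Un.pow ⟨U.ne_zero, hb _ hU.1, by simpa using hb _ hU.2⟩ r, ?_⟩
    have := h.bas.mon_add b (c' - r • M.aa) (r • M.aa)
    rw [sub_add_cancel, h.bas.mon_nsmul] at this
    rw [hfl, eU, this]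
    ring
  have un : ∀ s, M.Gen (cmp P G.o.O) c' s → Un (cmp P G.o.O) (s * ip 3 f ^ r) := fun s hg => by
    obtain ⟨U, hU, e1⟩ := eq _ b0 s hb0
    exact Un.cancel (e1 ▸ (hg b0 hb0).mul hU) (h.un_fl hb0 _)
  have key : ∀ s ∈ M.H c', M.Gen (cmp P G.o.O) c' s →
      F ^ m * G.π (P.π (s * ip 3 f ^ r)) ^ q ∈ Set.range (algebraMap ℂ k) := fun s hs hg => by
    have s0 := p2_ne (un s hg)
    refine (H7.ll ℂ k hk).2.2.1 _ fun x => ?_
    obtain ⟨U, hU, e1⟩ := eq _ (b x) s (hbx x)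
    have h1 := h.ord_ge (hb x) (un s hg).2.1 s0
      (e1 ▸ mul_mem (hs _ (h.ov hx x) (b x) (hbx x)) hU.2.1)
    have h2 := h.od_mono (hb x) (hbx x) hcc
    rw [map_sub, map_nsmul] at h1
    rw [map_nsmul] at h2
    rw [x.val_le_exp (x.val_ne (mul_ne_zero (pow_ne_zero _ F0) (pow_ne_zero _ s0))),
      x.ord_mul (x.val_ne (pow_ne_zero _ F0)) (x.val_ne (pow_ne_zero _ s0)), x.ord_pow, x.ord_pow]
    have h4 := hord x
    simp only [nsmul_eq_mul] at h1 h2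
    have h5 : (-((h.od (hb x) x c' : ℚ) - r * h.od (hb x) x M.aa)) ≤
        x.ord (G.π (P.π (s * ip 3 f ^ r))) := by exact_mod_cast h1
    have h6 : (h.od (hb x) x c' : ℚ) ≤ m * h.od (hb x) x c := by exact_mod_cast h2
    have h7 : (0 : ℚ) ≤ m * x.ord F + q * x.ord (G.π (P.π (s * ip 3 f ^ r))) := by
      have a1 := mul_le_mul_of_nonneg_left h4 (Nat.cast_nonneg (α := ℚ) m)
      have a2 := mul_le_mul_of_nonneg_left h5 (Nat.cast_nonneg (α := ℚ) q)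
      have a3 := mul_le_mul_of_nonneg_left h6 (Nat.cast_nonneg (α := ℚ) q)
      rw [hr] at a2
      nlinarith
    simp only [Finsupp.coe_zero, Pi.zero_apply, neg_zero]
    exact_mod_cast h7
  have root : ∀ (y : k) (n : ℕ), 0 < n → y ^ n ∈ Set.range (algebraMap ℂ k) →
      y ∈ Set.range (algebraMap ℂ k) := fun y n hn ⟨a, ha⟩ => by
    by_contra hy
    exact (H14.transc hy).pow hn (ha ▸ isAlgebraic_algebraMap a)
  obtain ⟨a, ha⟩ := key s hs hg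
  have s0 := p2_ne (un s hg)
  refine ⟨fun κ => un_p2 (sub_mem (un s hg).2.1 (cst_cmp κ)) fun h0 => hF ?_, fun s' hs' => ?_⟩
  · rw [p2_sub (un s hg).2.1 (cst_cmp κ), p2_cst, sub_eq_zero] at h0
    rw [h0] at ha s0
    exact root F m hm ⟨a / κ ^ q, by
      rw [map_div₀, ha, map_pow, mul_div_cancel_right₀ _ (pow_ne_zero _ s0)]⟩
  have hm' : s' / s ∈ cmp P G.o.O :=
    (h.bas.oc_div _ c' s' s h.isc.2.1 hg).1 (hs' _ h.isc.2.1)
  by_cases hu : Un (cmp P G.o.O) (s' / s)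
  swap
  · exact ⟨0, by rwa [map_zero, sub_zero]⟩
  have sne : s ≠ 0 := left_ne_zero_of_mul (un s hg).1
  have hg' : M.Gen (cmp P G.o.O) c' s' := fun b hb => by
    have := hu.mul (hg b hb)
    rwa [← mul_assoc, div_mul_cancel₀ _ sne] at this
  obtain ⟨a', ha'⟩ := key s' hs' hg'
  have e1 : s' * ip 3 f ^ r = s' / s * (s * ip 3 f ^ r) := by
    rw [← mul_assoc, div_mul_cancel₀ _ sne]
  rw [e1, p2_mul hm' (un s hg).2.1, mul_pow, mul_left_comm, ← ha] at ha'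
  have a0 : algebraMap ℂ k a ≠ 0 := ha ▸ mul_ne_zero (pow_ne_zero _ F0) (pow_ne_zero _ s0)
  obtain ⟨κ, hκ⟩ := root _ q hq ⟨a' / a, by rw [map_div₀, ha', mul_div_cancel_right₀ _ a0]⟩
  exact ⟨κ, fun hu => p2_ne hu (by rw [p2_sub hm' (cst_cmp κ), p2_cst, hκ, sub_self])⟩

end

end Pool.Agent.MP_ee8c61_ag.N3.M3Z
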